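import Pool.Agent.H.MP_e9bccb.C

set_option autoImplicit false

namespace Pool.Agent.Results.MP_e9bccb_gt.IsCorson

def Corson (Y : Type) [TopologicalSpace Y] : Prop :=
  CompactSpace Y ∧ ∃ (Γ : Type) (e : Y → Γ → ℝ), Topology.IsEmbedding e ∧
    ∀ y, {γ : Γ | e y γ ≠ 0}.Countable

theorem result (X : Type) [TopologicalSpace X] [CompactSpace X] [T2Space X]
    (h : ∀ A : Set X, ∃ (Y : Type) (_ : TopologicalSpace Y), Corson Y ∧
      ∃ f : X → Y, Continuous f ∧ f ⁻¹' (f '' A) = A) : Corson X := by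
  refine ⟨inferInstance, H.MP_e9bccb.corson fun A => ?_⟩
  obtain ⟨Y, _, ⟨-, Γ, e, e1, e2⟩, f, f1, f2⟩ := h A
  exact ⟨Γ, e ∘ f, e1.continuous.comp f1, fun x => e2 _, fun x y k hx =>
    f2 ▸ ⟨x, hx, e1.injective k⟩⟩

end Pool.Agent.Results.MP_e9bccb_gt.IsCorson
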